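import Mathlib
import Pool.Agent.N13.TL.Thurston
import Pool.Agent.Y501.SY.BridgeV

/-!
# Thurston's construction over the null vectors of a nef class

`X` is a closed manifold, `τ` a nondegenerate two-form, `J` an almost complex structure tamed by
`τ`, and `𝒞` is a convex set of smooth closed two-forms which is stable under the addition of exact
forms, for instance the closed forms in a given class `a`.  It is supposed that `𝒞` is nef: it
contains forms `σ` with `σ(v, Jv) ≥ - ε τ(v, Jv)`, for all `ε > 0`.  No bound is assumed for these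
forms, and there may be no `σ` in `𝒞` with `σ(v, Jv) ≥ 0`.

A smooth form `θ` is dominated by `𝒞` if the positive part of `θ(u, Ju)` is bounded above by forms
`σ(u, Ju)` with `σ` in `𝒞` up to arbitrarily small errors, and `v` is a null vector if
`θ(v, Jv) ≤ 0` for all dominated `θ`.  The locus is the set of the points with a nonzero null
vector.  It is divided into the fibres of the basic functions: the smooth functions the
differentials of which vanish on the null vectors.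

Let `ζ` be a smooth closed form.  If for each fibre there is a form `ζ + dβ`, nonnegative on the
null vectors over this fibre, which is zero on nonzero null vectors only over a set with small
components, then for all small `t > 0` there is `σ` in `𝒞` such that `σ + t ζ` is a symplectic form
which tames `J`; it is homotopic to `τ` through nondegenerate forms.  With `ζ` in `𝒞` or `ζ = 0`
this is a necessary and sufficient condition for a symplectic form in `𝒞` which tames `J`.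

The library `Pool.Agent.Y501.SY` and the parts it uses are by helpers 501, 484, 363, 108, 925, 44,
658 and others.
-/

set_option autoImplicit false

open Set MeasureTheory Topology
open scoped Manifold ContDiff

noncomputable section

namespace Pool.Agent.Results.MP_bf98aa_gt.AsymptoticThurston

open Pool.Agent.Y501.SYP

section defs

variable {V : Type} [NormedAddCommGroup V] [NormedSpace ℝ V]
  {X : Type} [TopologicalSpace X] [ChartedSpace V X]

/-- a convex set of smooth closed two-forms, stable under the addition of exact forms -/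
structure ExactStable (𝒞 : Set (Form V X 2)) : Prop where
  smooth : ∀ σ ∈ 𝒞, IsSmooth σ
  closed : ∀ σ ∈ 𝒞, IsClosedForm σ
  convex : Convex ℝ 𝒞
  exact : ∀ σ ∈ 𝒞, ∀ (α : Form V X 1) (ρ : Form V X 2), IsSmooth α → IsSmooth ρ → IsD α ρ →
    addF σ ρ ∈ 𝒞

/-- `𝒞` is nef: for all `ε > 0` there is `σ` in `𝒞` with `σ(v, Jv) ≥ - ε τ(v, Jv)` for all tangent
vectors `v` -/
def Nef (𝒞 : Set (Form V X 2)) (J : End V X) (τ : Form V X 2) : Prop :=
  ∀ ε : ℝ, 0 < ε → ∃ σ ∈ 𝒞, ∀ (y : X) (v : TangentSpace 𝓘(ℝ, V) y), -ε * qd τ J y v ≤ qd σ J y v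

/-- `θ` is smooth, and the positive part of `θ(v, Jv)` is bounded above by forms of `𝒞` up to
arbitrarily small errors -/
def Dominated (𝒞 : Set (Form V X 2)) (J : End V X) (τ θ : Form V X 2) : Prop :=
  IsSmooth θ ∧ ∀ ε : ℝ, 0 < ε → ∃ σ ∈ 𝒞, ∀ (y : X) (v : TangentSpace 𝓘(ℝ, V) y),
    max (qd θ J y v) 0 ≤ qd σ J y v + ε * qd τ J y v

/-- null vectors: `θ(v, Jv) ≤ 0` for all dominated forms `θ` -/
def NullVec (𝒞 : Set (Form V X 2)) (J : End V X) (τ : Form V X 2) (x : X)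
    (v : TangentSpace 𝓘(ℝ, V) x) : Prop :=
  ∀ θ : Form V X 2, Dominated 𝒞 J τ θ → qd θ J x v ≤ 0

/-- the points with a nonzero null vector -/
def Locus (𝒞 : Set (Form V X 2)) (J : End V X) (τ : Form V X 2) : Set X :=
  {x | ∃ v : TangentSpace 𝓘(ℝ, V) x, v ≠ 0 ∧ NullVec 𝒞 J τ x v}

/-- basic functions: smooth functions the differentials of which vanish on the null vectors -/
structure Basic (𝒞 : Set (Form V X 2)) (J : End V X) (τ : Form V X 2) (f : X → ℝ) : Prop where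
  smooth : SmoothFun (V := V) f
  null : ∀ (x : X) (v : TangentSpace 𝓘(ℝ, V) x), NullVec 𝒞 J τ x v → dd f x v = 0

/-- the points of the locus at which every basic function has the same value as at `z` -/
def Fibre (𝒞 : Set (Form V X 2)) (J : End V X) (τ : Form V X 2) (z : X) : Set X :=
  {y | y ∈ Locus 𝒞 J τ ∧ ∀ f, Basic 𝒞 J τ f → f y = f z}

/-- the points of `F` with a nonzero null vector on which `θ(v, Jv)` is zero -/
def NullExc (𝒞 : Set (Form V X 2)) (J : End V X) (τ θ : Form V X 2) (F : Set X) : Set X :=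
  {x | x ∈ F ∧ ∃ v : TangentSpace 𝓘(ℝ, V) x, v ≠ 0 ∧ NullVec 𝒞 J τ x v ∧ qd θ J x v = 0}

/-- For some smooth one-form `β` the form `θ = ζ + dβ` is nonnegative on the null vectors over the
fibre of `z`, and the components of the set of the points of the fibre with a nonzero null vector
on which `θ(v, Jv)` is zero are small at all their points. -/
def GoodFib [MeasurableSpace V] [BorelSpace V] (𝒞 : Set (Form V X 2)) (J : End V X)
    (τ ζ : Form V X 2) (z : X) : Prop :=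
  ∃ (β : Form V X 1) (ρ : Form V X 2), IsSmooth β ∧ IsSmooth ρ ∧ IsD β ρ ∧
    (∀ x ∈ Fibre 𝒞 J τ z, ∀ v : TangentSpace 𝓘(ℝ, V) x, NullVec 𝒞 J τ x v →
      0 ≤ qd (addF ζ ρ) J x v) ∧
    ∀ w ∈ NullExc 𝒞 J τ (addF ζ ρ) (Fibre 𝒞 J τ z),
      SmallAll J (connectedComponentIn (NullExc 𝒞 J τ (addF ζ ρ) (Fibre 𝒞 J τ z)) w) w

/-- `w` is a symplectic form which tames `J`, and the segment from `τ` to `w` consists of
nondegenerate forms. -/
def SymplecticFrom (τ : Form V X 2) (J : End V X) (w : Form V X 2) : Prop :=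
  IsTamingSymplectic w J ∧ ∀ s : ℝ, 0 ≤ s → s ≤ 1 → NondegForm (segment τ w s)

end defs

attribute [local instance] cs mf

section lemmas

variable {d : ℕ} {X : Type} [TopologicalSpace X] [ChartedSpace (ES d) X]

theorem nullVec_iff {𝒞 : Set (Form (ES d) X 2)} {J : End (ES d) X} {τ : Form (ES d) X 2} (x : X)
    (v : TangentSpace 𝓘(ℝ, ES d) x) :
    NullVec 𝒞 J τ x v ↔ Pool.Agent.N13.TL.NullV (d := d) (X := X) 𝒞 J τ x v :=
  ⟨fun h θ h1 h2 => h θ ⟨(smooth_iff θ).2 h1, h2⟩, fun h θ h1 => h θ ((smooth_iff θ).1 h1.1) h1.2⟩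

theorem locus_eq {𝒞 : Set (Form (ES d) X 2)} {J : End (ES d) X} {τ : Form (ES d) X 2} :
    Locus 𝒞 J τ = Pool.Agent.N13.TL.NLoc (d := d) (X := X) 𝒞 J τ := by
  ext x
  exact exists_congr fun v => and_congr Iff.rfl (nullVec_iff x v)

theorem fibre_eq {𝒞 : Set (Form (ES d) X 2)} {J : End (ES d) X} {τ : Form (ES d) X 2} (z : X) :
    Fibre 𝒞 J τ z = Pool.Agent.N13.TL.NFib (d := d) (X := X) 𝒞 J τ z := by
  ext y
  have h1 : y ∈ Locus 𝒞 J τ ↔ y ∈ Pool.Agent.N13.TL.NLoc (d := d) (X := X) 𝒞 J τ := by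
    rw [locus_eq]
  refine and_congr h1 ⟨fun h f hf => h f ⟨hf.smooth, fun x v hv => hf.null x v
    ((nullVec_iff x v).1 hv)⟩, fun h f hf => h f ⟨hf.smooth, fun x v hv => hf.null x v
    ((nullVec_iff x v).2 hv)⟩⟩

theorem exc_eq {𝒞 : Set (Form (ES d) X 2)} {J : End (ES d) X} {τ θ : Form (ES d) X 2}
    (F : Set X) :
    NullExc 𝒞 J τ θ F = Pool.Agent.N13.TL.NExc (d := d) (X := X) 𝒞 J τ θ F := by
  ext y
  exact and_congr Iff.rfl (exists_congr fun v => and_congr Iff.rfl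
    (and_congr (nullVec_iff y v) Iff.rfl))

theorem tame_of_good [IsManifold 𝓘(ℝ, ES d) ∞ X] [CompactSpace X] [T2Space X]
    {J : End (ES d) X} (hJ : IsAlmostComplex J) {τ : Form (ES d) X 2} (hτ : IsSmooth τ)
    (hτt : ∀ x, TamesAt τ J x) {𝒞 : Set (Form (ES d) X 2)} (hC : ExactStable 𝒞)
    (hn : Nef 𝒞 J τ) {ζ : Form (ES d) X 2} (hζ : IsSmooth ζ)
    (h : ∀ z ∈ Locus 𝒞 J τ, GoodFib 𝒞 J τ ζ z) :
    ∃ t₀ : ℝ, 0 < t₀ ∧ ∀ t : ℝ, 0 < t → t ≤ t₀ → ∃ σ ∈ 𝒞, ∀ x, TamesAt (comb σ t ζ) J x := by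
  have hC' : Pool.Agent.N13.TL.FC (d := d) (X := X) 𝒞 :=
    ⟨fun σ hσ => (smooth_iff σ).1 (hC.smooth σ hσ), fun σ hσ => (closed_iff σ).1 (hC.closed σ hσ),
      hC.convex, fun σ hσ α ρ h1 h2 h3 => hC.exact σ hσ α ρ ((smooth_iff α).2 h1)
        ((smooth_iff ρ).2 h2) ((isD_iff α ρ).2 h3)⟩
  refine Pool.Agent.N13.TL.thurston (d := d) (X := X) (𝒞 := 𝒞) (J := J) (τ := τ) (ac_of J hJ)
    ((smooth_iff τ).1 hτ) hτt hC' hn (ζ := ζ) ((smooth_iff ζ).1 hζ) fun z hz => ?_
  obtain ⟨β, ρ, h1, h2, h3, h4, h5⟩ := h z (by rw [locus_eq]; exact hz)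
  refine ⟨β, ρ, (smooth_iff β).1 h1, (smooth_iff ρ).1 h2, (isD_iff β ρ).1 h3,
    fun x hx v hv => ?_, fun w hw => ?_⟩
  · exact h4 x (by rw [fibre_eq]; exact hx) v ((nullVec_iff x v).2 hv)
  · have h6 := h5 w (by rw [fibre_eq, exc_eq]; exact hw)
    rw [fibre_eq, exc_eq] at h6
    exact smallAll_of hJ h6

end lemmas

/-- **Thurston's construction over a nef class.**  Let `ζ` be a smooth closed form all fibres of
which are good.  Then for all small `t > 0` there is `σ` in `𝒞` such that `σ + t ζ` is a symplectic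
form taming `J`, joined to `τ` by a segment of nondegenerate forms.  For `ζ` in `𝒞` and for `ζ = 0`
there is such a symplectic form in `𝒞` itself if and only if all fibres are good. -/
theorem result (d : ℕ) (X : Type) [TopologicalSpace X] [ChartedSpace (ES d) X]
    [IsManifold 𝓘(ℝ, ES d) ∞ X] [CompactSpace X] [T2Space X]
    (J : End (ES d) X) (hJ : IsAlmostComplex J) (τ : Form (ES d) X 2) (hτ : IsSmooth τ)
    (hτt : ∀ x, TamesAt τ J x) (𝒞 : Set (Form (ES d) X 2)) (hC : ExactStable 𝒞)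
    (hn : Nef 𝒞 J τ) :
    (∀ ζ : Form (ES d) X 2, IsSmooth ζ → IsClosedForm ζ →
      (∀ z ∈ Locus 𝒞 J τ, GoodFib 𝒞 J τ ζ z) →
      ∃ t₀ : ℝ, 0 < t₀ ∧ ∀ t : ℝ, 0 < t → t ≤ t₀ → ∃ σ ∈ 𝒞, SymplecticFrom τ J (comb σ t ζ)) ∧
    ∀ ζ : Form (ES d) X 2, ζ ∈ 𝒞 ∨ ζ = 0 →
      ((∃ σ ∈ 𝒞, SymplecticFrom τ J σ) ↔ ∀ z ∈ Locus 𝒞 J τ, GoodFib 𝒞 J τ ζ z) := by
  have hT : ∀ σ : Form (ES d) X 2, IsSmooth σ → IsClosedForm σ → (∀ x, TamesAt σ J x) →
      SymplecticFrom τ J σ := fun σ h1 h2 h3 =>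
    ⟨symp_of h1 h2 h3, fun s h4 h5 => segment_nondeg hτt h3 s h4 h5⟩
  refine ⟨fun ζ hζ hζc h => ?_, fun ζ hζ => ⟨fun h z hz => ?_, fun h => ?_⟩⟩
  · obtain ⟨t₀, h1, h2⟩ := tame_of_good hJ hτ hτt hC hn hζ h
    refine ⟨t₀, h1, fun t h3 h4 => ?_⟩
    obtain ⟨σ, hσ, h5⟩ := h2 t h3 h4
    refine ⟨σ, hσ, hT _ ?_ ?_ h5⟩
    · exact (smooth_iff _).2 (((smooth_iff σ).1 (hC.smooth σ hσ)).add
        (((smooth_iff ζ).1 hζ).smul t))
    · have h6 : Pool.Agent.Y501.SY.IsD (d := d) (X := X) (σ + t • ζ) (0 + t • 0) :=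
        Pool.Agent.Y501.SY.IsD.add ((closed_iff σ).1 (hC.closed σ hσ))
          (Pool.Agent.Y501.SY.IsD.smul ((closed_iff ζ).1 hζc) t)
          ((smooth_iff σ).1 (hC.smooth σ hσ)) (((smooth_iff ζ).1 hζ).smul t)
      rw [smul_zero, add_zero] at h6
      exact (closed_iff _).2 h6
  · obtain ⟨σ, hσ, h1⟩ := h
    exfalso
    have hC' : Pool.Agent.N13.TL.FC (d := d) (X := X) 𝒞 :=
      ⟨fun σ hσ => (smooth_iff σ).1 (hC.smooth σ hσ),
        fun σ hσ => (closed_iff σ).1 (hC.closed σ hσ),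
        hC.convex, fun σ hσ α ρ h1 h2 h3 => hC.exact σ hσ α ρ ((smooth_iff α).2 h1)
          ((smooth_iff ρ).2 h2) ((isD_iff α ρ).2 h3)⟩
    have h2 := Pool.Agent.N13.TL.nloc_empty (d := d) (X := X) (𝒞 := 𝒞) (J := J) (τ := τ)
      (ac_of J hJ) ((smooth_iff τ).1 hτ) hτt hC' hσ h1.1.tames
    rw [locus_eq, h2] at hz
    exact notMem_empty z hz
  · rcases hζ with hζ | hζ
    · obtain ⟨t, h1, h2⟩ := tame_of_good hJ hτ hτt hC hn (hC.smooth ζ hζ) h
      obtain ⟨σ, hσ, h3⟩ := h2 t h1 le_rfl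
      have h4 : (1 / (1 + t)) • σ + (t / (1 + t)) • ζ ∈ 𝒞 :=
        hC.convex hσ hζ (by positivity) (by positivity) (by field_simp)
      refine ⟨_, h4, hT _ (hC.smooth _ h4) (hC.closed _ h4) fun x v hv => ?_⟩
      have h5 : 0 < qd σ J x v + t * qd ζ J x v := h3 x v hv
      show 0 < 1 / (1 + t) * qd σ J x v + t / (1 + t) * qd ζ J x v
      have h6 : 1 / (1 + t) * qd σ J x v + t / (1 + t) * qd ζ J x v =
          1 / (1 + t) * (qd σ J x v + t * qd ζ J x v) := by
        field_simp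
      rw [h6]
      positivity
    · subst hζ
      obtain ⟨t, h1, h2⟩ := tame_of_good hJ hτ hτt hC hn ((smooth_iff (0 : Form (ES d) X 2)).2
        Pool.Agent.Y501.SY.IsSmooth.zero) h
      obtain ⟨σ, hσ, h3⟩ := h2 t h1 le_rfl
      refine ⟨σ, hσ, hT _ (hC.smooth _ hσ) (hC.closed _ hσ) fun x v hv => ?_⟩
      have h5 : 0 < qd σ J x v + t * 0 := h3 x v hv
      rw [mul_zero, add_zero] at h5
      exact h5

end Pool.Agent.Results.MP_bf98aa_gt.AsymptoticThurston
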