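import Mathlib
import Pool.Agent.N824.CJ.BridgeN

/-!
# Symplectic forms in the classes `[ω₀] + t [ζ]` from coarse maps

`X` is a closed manifold of dimension `n` with a continuous almost complex structure `J`, `ω₀` and
`ζ` are smooth closed two-forms on `X`, and `ζ(v, Jv) ≥ 0` for all `v`: for instance the pull-back of
a form taming `J'` under a holomorphic map from `(X, J)` to `(B, J')`, the null vectors of which are
the vectors tangent to the fibres. By the construction of Thurston and Gompf the classes
`[ω₀] + t [ζ]` contain symplectic forms taming `J` for all large `t` if the class of `ω₀` contains a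
form which is positive on the pairs `(v, Jv)` with `v` a nonzero null vector of `ζ`.

The theorem characterizes this by the existence of maps `f r : X → (ℝ²)^N`, for arbitrarily small
scales `r`, without any regularity besides local integrability, which on the balls of radius
comparable with `r` are *in the mean* close to affine maps, with an error `δ` which is small compared
with the positivity of `ω₀ + L^*(∑ dx ∧ dy)` on the pairs `(v, Jv)` where `v` is a null vector of
`ζ` (no condition for the other vectors); `L` is the linear part. The maps `f r` are unrelated for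
different `r`, and their linear parts may be unbounded as `r` tends to `0`.

All these forms are homotopic, through nondegenerate forms, to any form `τ` which tames `J`: this
gives symplectic forms in a given class and a given homotopy class of nondegenerate forms.

The definitions are in `Pool/Agent/N824/CJ/PubV.lean` (`HasCoarseOn`, `CoarseAtOn`, `RobustOn`,
`nullVecs`, `Semipositive`), `Pool/Agent/N824/CJ/Pub.lean` (`AffineInMean`, `GoodParam`, `InClass`,
`Nondeg`) and in the starting file `Pool/Agent/Y501/SY/Pub.lean` (forms, `comb ω₀ t ζ = ω₀ + t ζ`,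
almost complex structures, taming).
-/

set_option autoImplicit false

open scoped Manifold ContDiff

namespace Pool.Agent.Results.MP_bf98aa_gt.CoarseThurston

open Pool.Agent.Y501.SYP
open Pool.Agent.N824.CJP

theorem result (n : ℕ) : ∃ C₀ : ℕ → ℝ, ∀ C : ℕ → ℝ, (∀ N, C₀ N ≤ C N) →
    ∀ (X : Type) [TopologicalSpace X] [ChartedSpace (ES n) X] [IsManifold 𝓘(ℝ, ES n) ∞ X]
      [CompactSpace X] [T2Space X] (ω₀ ζ : Form (ES n) X 2), IsSmooth ω₀ → IsClosedForm ω₀ →
      IsSmooth ζ → IsClosedForm ζ → ∀ J : End (ES n) X, IsAlmostComplex J → Semipositive ζ J →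
      (HasCoarseOn (nullVecs ζ J) n (vol n) C ω₀ (complexPairs J) ↔
        ∃ (t : ℝ) (σ : Form (ES n) X 2), InClass (comb ω₀ t ζ) σ ∧ ∀ x, TamesAt σ J x) ∧
      (HasCoarseOn (nullVecs ζ J) n (vol n) C ω₀ (complexPairs J) →
        ∃ t₀ : ℝ, ∀ t, t₀ ≤ t → ∃ σ : Form (ES n) X 2, InClass (comb ω₀ t ζ) σ ∧
          (∀ x, TamesAt σ J x) ∧ ∀ τ : Form (ES n) X 2, (∀ x, TamesAt τ J x) →
            ∀ s : ℝ, 0 ≤ s → s ≤ 1 → Nondeg (fun x => (1 - s) • τ x + s • σ x)) := by
  refine ⟨fun N => 4 * N * Pool.Agent.N824.CJ.CJ n ^ 2, fun C hC X _ _ _ _ _ ω₀ ζ hs hc hζs hζc J hJ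
    h0 => ?_⟩
  obtain ⟨h1, h2⟩ := mainNP n C hC X ω₀ ζ hs hc hζs hζc J hJ h0
  refine ⟨⟨fun h => ?_, h2⟩, fun h => ?_⟩
  · obtain ⟨t₀, ht₀⟩ := h1 h
    exact ⟨t₀, ht₀ t₀ le_rfl⟩
  · obtain ⟨t₀, ht₀⟩ := h1 h
    refine ⟨t₀, fun t ht => ?_⟩
    obtain ⟨σ, k1, k2⟩ := ht₀ t ht
    exact ⟨σ, k1, k2, fun τ hτ s hs0 hs1 => seg_nondeg k2 hτ hs0 hs1⟩

end Pool.Agent.Results.MP_bf98aa_gt.CoarseThurston
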