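import Mathlib
import Pool.Agent.N500.LS.Final

/-!
# Isolated singularities of taming forms beyond the inverse square

`X` is a closed manifold of dimension `d ≥ 4` with a continuous almost complex structure `J`, `K`
is a closed subset whose `(d-1)`-dimensional Hausdorff measure is zero and `σ` is a smooth closed
two-form off `K`, nonnegative on the complex lines, such that the components of the set of points
near which `σ` is not uniformly taming are small.  At the points of `K` the form `σ` may be
unbounded: its norm may grow like a power of the distance with exponent greater than `-2`, or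
greater than `-(2 + γ)` at the points near which `J` is Hoelder continuous with exponent `γ`
(greater than `-3` where `J` is Lipschitz; so the inverse square of the distance, the growth of
pull-backs by pseudoholomorphic resolutions of conical points, is allowed as soon as `J` has some
Hoelder exponent).  Then `X` carries a symplectic form taming `J` which is equal to `σ` plus an
exact form outside of a given neighbourhood of `K`, and which is joined by a segment of
nondegenerate forms to every form taming `J`.
-/

set_option autoImplicit false

open Set MeasureTheory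
open scoped Manifold ContDiff

namespace Pool.Agent.Results.MP_bf98aa_gt.StrongIsolatedSingularities

open Pool.Agent.Y501.SYP Pool.Agent.N500.LSP

theorem result (d : ℕ) (hd : 4 ≤ d) (X : Type) [TopologicalSpace X] [ChartedSpace (ES d) X]
    [IsManifold 𝓘(ℝ, ES d) ∞ X] [CompactSpace X] [T2Space X]
    (J : End (ES d) X) (hJ : IsAlmostComplex J) (K : Set X) (hK : IsClosed K)
    (hH : ∀ x₀ : X, μH[(d : ℝ) - 1] (chartAt (ES d) x₀ '' (K ∩ (chartAt (ES d) x₀).source)) = 0)
    (σ : Form (ES d) X 2) (hσ : ClosedOff σ K) (hb : ∀ x ∈ K, TameGrowth σ J K x)
    (hpos : ∀ x, x ∉ K → ∀ v : TangentSpace 𝓘(ℝ, ES d) x, 0 ≤ qd σ J x v)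
    (hsmall : ∀ z ∈ Crit σ J K, SmallAll J (connectedComponentIn (Crit σ J K) z) z)
    (U : Set X) (hU : IsOpen U) (hKU : K ⊆ U) :
    ∃ (α : Form (ES d) X 1) (η w : Form (ES d) X 2), IsSmooth α ∧ IsSmooth η ∧ IsD α η ∧
      IsTamingSymplectic w J ∧ (∀ x, x ∉ U → w x = addF σ η x) ∧
      ∀ τ : Form (ES d) X 2, (∀ x, TamesAt τ J x) →
        ∀ t : ℝ, 0 ≤ t → t ≤ 1 → NondegForm (segment τ w t) :=
  strongSing hd J hJ K hK hH σ hσ hb hpos hsmall U hU hKU

end Pool.Agent.Results.MP_bf98aa_gt.StrongIsolatedSingularities
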